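import Pool.Agent.helper96.S5.SpecV

set_option autoImplicit false

namespace S5

open PF

theorem CPX_row (hCM1 : CM1_stmt) (hCM2 : CM2_stmt) : CPX_stmt := fun X h =>
  ⟨⟨(hCM1 X h).1, (hCM1 X h).2.1, (hCM1 X h).2.2, hCM2 X h⟩, h.m0⟩

end S5
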